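import Mathlib

/-!
# A zero of a real function outside a complex hypersurface

If a continuous real function takes both signs on a convex open subset of `ℂⁿ`, then it has a zero
there outside the zero set of any given nonzero complex polynomial.
-/

open Topology Filter Set

noncomputable section

namespace Pool.Agent.LFA74

/-- nonzero polynomials do not vanish identically on a nonempty open set -/
theorem exists_eval_ne {n : ℕ} {V : Set (Fin n → ℂ)} (hV : IsOpen V) {a : Fin n → ℂ} (ha : a ∈ V)
    {F : MvPolynomial (Fin n) ℂ} (hF : F ≠ 0) : ∃ z ∈ V, MvPolynomial.eval z F ≠ 0 := by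
  obtain ⟨r, hr, hb⟩ := Metric.isOpen_iff.1 hV a ha
  by_contra hcon
  push Not at hcon
  apply hF
  have hS : ∀ i : Fin n, (Metric.ball (a i) r).Infinite := fun i => by
    apply Set.infinite_of_injective_forall_mem (f := fun k : ℕ => a i + ((r / (k + 2) : ℝ) : ℂ))
    · intro k l hkl
      have h1 : ((r / (k + 2) : ℝ) : ℂ) = ((r / (l + 2) : ℝ) : ℂ) := by
        simpa using hkl
      have h2 : r / ((k : ℝ) + 2) = r / ((l : ℝ) + 2) := by exact_mod_cast h1
      have hk : (0 : ℝ) < (k : ℝ) + 2 := by positivity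
      have hl : (0 : ℝ) < (l : ℝ) + 2 := by positivity
      rw [div_eq_div_iff hk.ne' hl.ne'] at h2
      have h3 := mul_left_cancel₀ hr.ne' h2
      have h4 : (k : ℝ) = l := by linarith
      exact_mod_cast h4
    · intro k
      rw [Metric.mem_ball, dist_eq_norm, add_sub_cancel_left, Complex.norm_real, Real.norm_eq_abs,
        abs_of_pos (by positivity)]
      rw [div_lt_iff₀ (by positivity)]
      nlinarith [Nat.cast_nonneg (α := ℝ) k]
  apply MvPolynomial.funext_set (fun i => Metric.ball (a i) r) hS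
  intro z hz
  rw [map_zero]
  apply hcon
  apply hb
  rw [Metric.mem_ball, dist_pi_lt_iff hr]
  intro i
  exact hz i (Set.mem_univ i)

/-- (P) a continuous real function which changes sign on a convex open set has a zero there outside
a proper algebraic hypersurface: perturb the ends to points `a`, `b` with `Q ≠ 0`, restrict `Q` to
the complex line through `a` and `b` and use the path `t + i s t (1 - t)`, `s` small. -/
theorem sign_path {k : ℕ} {U : Set (Fin k → ℂ)} (hU : IsOpen U) (hUc : Convex ℝ U)
    {g : (Fin k → ℂ) → ℝ} (hg : Continuous g) {a b : Fin k → ℂ} (ha : a ∈ U) (hb : b ∈ U)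
    (hga : g a < 0) (hgb : 0 < g b) {Q : MvPolynomial (Fin k) ℂ} (hQ : Q ≠ 0) :
    ∃ z ∈ U, g z = 0 ∧ MvPolynomial.eval z Q ≠ 0 := by
  -- perturb the ends
  obtain ⟨a', ⟨ha', hga'⟩, hQa⟩ := exists_eval_ne (V := U ∩ {z | g z < 0})
    (hU.inter (isOpen_lt hg continuous_const)) ⟨ha, hga⟩ hQ
  obtain ⟨b', ⟨hb', hgb'⟩, hQb⟩ := exists_eval_ne (V := U ∩ {z | 0 < g z})
    (hU.inter (isOpen_lt continuous_const hg)) ⟨hb, hgb⟩ hQ
  change g a' < 0 at hga'
  change 0 < g b' at hgb'
  -- the line
  set w : Fin k → ℂ := b' - a' with hw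
  set q : Polynomial ℂ := MvPolynomial.aeval
    (fun i => Polynomial.C (a' i) + Polynomial.X * Polynomial.C (w i)) Q with hq
  have hqe : ∀ τ : ℂ, q.eval τ = MvPolynomial.eval (a' + τ • w) Q := by
    intro τ
    have h1 : (Polynomial.evalRingHom τ).comp
        (MvPolynomial.aeval (R := ℂ)
          (fun i => Polynomial.C (a' i) + Polynomial.X * Polynomial.C (w i))).toRingHom =
        MvPolynomial.eval (a' + τ • w) := by
      apply MvPolynomial.ringHom_ext
      · intro c
        simp
      · intro i
        simp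
        ring
    exact RingHom.congr_fun h1 Q
  have hq0 : q ≠ 0 := by
    intro h
    apply hQa
    have := hqe 0
    rw [h] at this
    simpa using this.symm
  -- room around the segment
  have hK : IsCompact (segment ℝ a' b') := by
    rw [segment_eq_image_lineMap]
    exact isCompact_Icc.image AffineMap.lineMap_continuous
  obtain ⟨δ, hδ, hδU⟩ := hK.exists_thickening_subset_open hU (hUc.segment_subset ha' hb')
  -- a good slope
  obtain ⟨s, hs, hsB⟩ : ∃ s ∈ Ioo (0 : ℝ) (δ / (‖w‖ + 1)),
      s ∉ q.roots.toFinset.image (fun τ : ℂ => τ.im / (τ.re * (1 - τ.re))) :=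
    (Set.Ioo_infinite (by positivity)).exists_notMem_finset _
  set τ : ℝ → ℂ := fun t => (t : ℂ) + ((s * (t * (1 - t)) : ℝ) : ℂ) * Complex.I with hτ
  have hτc : Continuous τ := by
    rw [hτ]
    fun_prop
  have hτ0 : τ 0 = 0 := by simp [hτ]
  have hτ1 : τ 1 = 1 := by simp [hτ]
  have hre : ∀ t, (τ t).re = t := fun t => by simp [hτ]
  have him : ∀ t, (τ t).im = s * (t * (1 - t)) := fun t => by simp [hτ]
  have hz : Continuous fun t => g (a' + τ t • w) := by
    apply hg.comp
    fun_prop
  have hivt := intermediate_value_Icc (zero_le_one (α := ℝ)) hz.continuousOn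
  have h0 : g (a' + τ 0 • w) < 0 := by
    rw [hτ0]
    simpa using hga'
  have h1 : 0 < g (a' + τ 1 • w) := by
    rw [hτ1]
    simpa [hw] using hgb'
  obtain ⟨t, ht, htz⟩ := hivt ⟨h0.le, h1.le⟩
  have ht0 : t ≠ 0 := by
    rintro rfl
    simp only at htz
    rw [htz] at h0
    exact lt_irrefl _ h0
  have ht1 : t ≠ 1 := by
    rintro rfl
    simp only at htz
    rw [htz] at h1
    exact lt_irrefl _ h1
  refine ⟨a' + τ t • w, ?_, htz, ?_⟩
  · apply hδU
    rw [Metric.mem_thickening_iff]
    refine ⟨AffineMap.lineMap a' b' t, ?_, ?_⟩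
    · rw [segment_eq_image_lineMap]
      exact ⟨t, ht, rfl⟩
    · rw [dist_eq_norm, AffineMap.lineMap_apply]
      have h2 : a' + τ t • w - (t • (b' -ᵥ a') +ᵥ a') =
          (((s * (t * (1 - t)) : ℝ) : ℂ) * Complex.I) • w := by
        rw [hτ, hw, vsub_eq_sub, vadd_eq_add, add_smul]
        have h3 : ((t : ℂ)) • (b' - a') = t • (b' - a') := by
          ext i
          simp
        simp only [h3]
        abel
      rw [h2, norm_smul, norm_mul, Complex.norm_I, mul_one, Complex.norm_real, Real.norm_eq_abs]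
      have h4 : |s * (t * (1 - t))| ≤ s := by
        rw [abs_of_nonneg (mul_nonneg hs.1.le (mul_nonneg ht.1 (by linarith [ht.2])))]
        exact mul_le_of_le_one_right hs.1.le (by nlinarith [ht.1, ht.2])
      calc |s * (t * (1 - t))| * ‖w‖ ≤ s * ‖w‖ := mul_le_mul_of_nonneg_right h4 (norm_nonneg _)
        _ ≤ s * (‖w‖ + 1) := mul_le_mul_of_nonneg_left (by linarith) hs.1.le
        _ < δ := by
          have h5 := hs.2
          rwa [lt_div_iff₀ (by positivity)] at h5
  · intro hzero
    apply hsB
    rw [Finset.mem_image]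
    refine ⟨τ t, ?_, ?_⟩
    · rw [Multiset.mem_toFinset, Polynomial.mem_roots hq0, Polynomial.IsRoot.def, hqe]
      exact hzero
    · rw [hre, him]
      have h6 : t * (1 - t) ≠ 0 := mul_ne_zero ht0 (sub_ne_zero.2 (Ne.symm ht1))
      field_simp

end Pool.Agent.LFA74
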