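import Pool.Agent.LFA74.Master

set_option autoImplicit false

namespace Pool.Agent.LFA74

open Topology Filter Set

variable {k : ℕ}

/-- the complexified polynomial `H(z, w)`, with `P(x, y) = H(z, z̄)` -/
noncomputable def H (P : MvPolynomial (Fin k ⊕ Fin k) ℝ) (z w : Fin k → ℂ) : ℂ :=
  MvPolynomial.aeval (Sum.elim (fun j => (z j + w j) / 2)
    (fun j => (z j - w j) / (2 * Complex.I)) : Fin k ⊕ Fin k → ℂ) P

noncomputable def val (P : MvPolynomial (Fin k ⊕ Fin k) ℝ) (z : Fin k → ℂ) : ℝ :=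
  MvPolynomial.eval (Sum.elim (fun j => (z j).re) (fun j => (z j).im)) P

theorem H_real (P : MvPolynomial (Fin k ⊕ Fin k) ℝ) (z : Fin k → ℂ) :
    H P z (fun j => (starRingEnd ℂ) (z j)) = (val P z : ℂ) := by
  have h1 : (Sum.elim (fun j => (z j + (starRingEnd ℂ) (z j)) / 2)
      (fun j => (z j - (starRingEnd ℂ) (z j)) / (2 * Complex.I)) : Fin k ⊕ Fin k → ℂ)
      = fun i => algebraMap ℝ ℂ ((Sum.elim (fun j => (z j).re) (fun j => (z j).im)) i) := by
    funext i
    rcases i with j | j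
    · simp only [Sum.elim_inl, Complex.coe_algebraMap]
      rw [Complex.add_conj]
      push_cast
      ring
    · simp only [Sum.elim_inr, Complex.coe_algebraMap]
      rw [Complex.sub_conj]
      push_cast
      field_simp
  rw [H, h1]
  have h2 := MvPolynomial.aeval_algebraMap_apply (A := ℝ) (B := ℂ)
    (Sum.elim (fun j => (z j).re) (fun j => (z j).im)) P
  rw [MvPolynomial.aeval_eq_eval] at h2
  exact h2

theorem H_conj (P : MvPolynomial (Fin k ⊕ Fin k) ℝ) (z w : Fin k → ℂ) :
    (starRingEnd ℂ) (H P z w) =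
      H P (fun j => (starRingEnd ℂ) (w j)) (fun j => (starRingEnd ℂ) (z j)) := by
  have h1 := MvPolynomial.comp_aeval_apply (R := ℝ)
    (f := (Sum.elim (fun j => (z j + w j) / 2)
      (fun j => (z j - w j) / (2 * Complex.I)) : Fin k ⊕ Fin k → ℂ))
    (φ := (Complex.conjAe : ℂ →ₐ[ℝ] ℂ)) (p := P)
  have h2 : (starRingEnd ℂ) (H P z w) = (Complex.conjAe : ℂ →ₐ[ℝ] ℂ) (H P z w) := rfl
  rw [h2, H, h1, H]
  congr 2
  funext i
  rcases i with j | j
  · show (starRingEnd ℂ) ((z j + w j) / 2) = _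
    simp only [map_div₀, map_add, Sum.elim_inl, Complex.conj_ofNat]
    ring
  · show (starRingEnd ℂ) ((z j - w j) / (2 * Complex.I)) = _
    simp only [map_div₀, map_sub, map_mul, Sum.elim_inr, Complex.conj_ofNat, Complex.conj_I]
    field_simp
    ring

/-- `H(·, w)` as a polynomial -/
noncomputable def Hp (P : MvPolynomial (Fin k ⊕ Fin k) ℝ) (w : Fin k → ℂ) :
    MvPolynomial (Fin k) ℂ :=
  MvPolynomial.aeval (Sum.elim
    (fun j => MvPolynomial.C (1 / 2 : ℂ) * (MvPolynomial.X j + MvPolynomial.C (w j)))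
    (fun j => MvPolynomial.C (1 / (2 * Complex.I) : ℂ) *
      (MvPolynomial.X j - MvPolynomial.C (w j))) : Fin k ⊕ Fin k → MvPolynomial (Fin k) ℂ) P

theorem eval_Hp (P : MvPolynomial (Fin k ⊕ Fin k) ℝ) (z w : Fin k → ℂ) :
    MvPolynomial.eval z (Hp P w) = H P z w := by
  have h1 := MvPolynomial.comp_aeval_apply (R := ℝ)
    (f := (Sum.elim
      (fun j => MvPolynomial.C (1 / 2 : ℂ) * (MvPolynomial.X j + MvPolynomial.C (w j)))
      (fun j => MvPolynomial.C (1 / (2 * Complex.I) : ℂ) *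
        (MvPolynomial.X j - MvPolynomial.C (w j))) : Fin k ⊕ Fin k → MvPolynomial (Fin k) ℂ))
    (φ := (MvPolynomial.aeval z : MvPolynomial (Fin k) ℂ →ₐ[ℂ] ℂ).restrictScalars ℝ) (p := P)
  have h2 : MvPolynomial.eval z (Hp P w) =
      ((MvPolynomial.aeval z : MvPolynomial (Fin k) ℂ →ₐ[ℂ] ℂ).restrictScalars ℝ) (Hp P w) := by
    rw [AlgHom.restrictScalars_apply, MvPolynomial.aeval_eq_eval]
  rw [h2, Hp, h1, H]
  congr 2
  funext i
  rcases i with j | j
  · show (MvPolynomial.aeval z) (MvPolynomial.C (1 / 2 : ℂ) *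
      (MvPolynomial.X j + MvPolynomial.C (w j))) = _
    simp only [map_mul, map_add, MvPolynomial.aeval_C, MvPolynomial.aeval_X, Sum.elim_inl,
      Algebra.algebraMap_self, RingHom.id_apply]
    ring
  · show (MvPolynomial.aeval z) (MvPolynomial.C (1 / (2 * Complex.I) : ℂ) *
      (MvPolynomial.X j - MvPolynomial.C (w j))) = _
    simp only [map_mul, map_sub, MvPolynomial.aeval_C, MvPolynomial.aeval_X, Sum.elim_inr,
      Algebra.algebraMap_self, RingHom.id_apply]
    ring

theorem deg_Hp (P : MvPolynomial (Fin k ⊕ Fin k) ℝ) (w : Fin k → ℂ) :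
    (Hp P w).totalDegree ≤ P.totalDegree := by
  have hf : ∀ i : Fin k ⊕ Fin k, ((Sum.elim
      (fun j => MvPolynomial.C (1 / 2 : ℂ) * (MvPolynomial.X j + MvPolynomial.C (w j)))
      (fun j => MvPolynomial.C (1 / (2 * Complex.I) : ℂ) *
        (MvPolynomial.X j - MvPolynomial.C (w j))) : Fin k ⊕ Fin k → MvPolynomial (Fin k) ℂ)
        i).totalDegree ≤ 1 := by
    intro i
    rcases i with j | j
    · simp only [Sum.elim_inl]
      refine (MvPolynomial.totalDegree_mul _ _).trans ?_
      rw [MvPolynomial.totalDegree_C, zero_add]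
      refine (MvPolynomial.totalDegree_add _ _).trans ?_
      rw [MvPolynomial.totalDegree_C, MvPolynomial.totalDegree_X]
      simp
    · simp only [Sum.elim_inr]
      refine (MvPolynomial.totalDegree_mul _ _).trans ?_
      rw [MvPolynomial.totalDegree_C, zero_add]
      refine (MvPolynomial.totalDegree_sub _ _).trans ?_
      rw [MvPolynomial.totalDegree_C, MvPolynomial.totalDegree_X]
      simp
  rw [Hp, MvPolynomial.aeval_def, MvPolynomial.eval₂_eq]
  refine MvPolynomial.totalDegree_finsetSum_le fun e he => ?_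
  refine (MvPolynomial.totalDegree_mul _ _).trans ?_
  have h0 : (algebraMap ℝ (MvPolynomial (Fin k) ℂ) (P.coeff e)).totalDegree = 0 := by
    rw [IsScalarTower.algebraMap_apply ℝ ℂ (MvPolynomial (Fin k) ℂ), MvPolynomial.algebraMap_eq,
      MvPolynomial.totalDegree_C]
  rw [h0, zero_add]
  refine (MvPolynomial.totalDegree_finsetProd _ _).trans ?_
  calc _ ≤ ∑ i ∈ e.support, e i := by
        refine Finset.sum_le_sum fun i _ => ?_
        refine (MvPolynomial.totalDegree_pow _ _).trans ?_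
        calc _ ≤ e i * 1 := Nat.mul_le_mul_left _ (hf i)
          _ = e i := mul_one _
    _ ≤ P.totalDegree := MvPolynomial.le_totalDegree he

theorem aeval_diffAt {σ : Type*} (P : MvPolynomial σ ℝ) {c : ℂ → σ → ℂ} {l : ℂ}
    (hc : ∀ i, DifferentiableAt ℂ (fun l => c l i) l) :
    DifferentiableAt ℂ (fun l => MvPolynomial.aeval (c l) P) l := by
  induction P using MvPolynomial.induction_on with
  | C a => simp
  | add p q hp hq =>
    simp only [map_add]
    exact hp.add hq
  | mul_X p i hp =>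
    simp only [map_mul, MvPolynomial.aeval_X]
    exact hp.mul (hc i)

/-- Polarisation: if `P` vanishes on the germ of the complex manifold `γ`, so does
`H(·, conj γ(s))`. -/
theorem polarise {m : ℕ} (P : MvPolynomial (Fin k ⊕ Fin k) ℝ) {γ : (Fin m → ℂ) → (Fin k → ℂ)}
    {a : Fin m → ℂ} (hγ : ∀ᶠ t in 𝓝 a, DifferentiableAt ℂ γ t)
    (h0 : ∀ᶠ t in 𝓝 a, val P (γ t) = 0) :
    ∀ᶠ s in 𝓝 a, ∀ᶠ t in 𝓝 a, H P (γ t) (fun j => (starRingEnd ℂ) (γ s j)) = 0 := by
  obtain ⟨ε, hε, hball⟩ := Metric.eventually_nhds_iff.1 (hγ.and h0)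
  have hρ : 0 < ε / 3 := by positivity
  filter_upwards [Metric.ball_mem_nhds a hρ] with s hs
  filter_upwards [Metric.ball_mem_nhds a hρ] with t ht
  rw [mem_ball_iff_norm] at hs ht
  set A : Fin m → ℂ := (1 / 2 : ℂ) • (t + s) with hA
  set B : Fin m → ℂ := (1 / (2 * Complex.I) : ℂ) • (t - s) with hB
  have hAn : ‖A - a‖ < ε / 3 := by
    have h1 : A - a = (1 / 2 : ℂ) • ((t - a) + (s - a)) := by
      rw [hA]
      module
    rw [h1, norm_smul]
    have h2 : ‖(1 / 2 : ℂ)‖ = 1 / 2 := by norm_num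
    rw [h2]
    have := norm_add_le (t - a) (s - a)
    linarith
  have hBn : ‖B‖ < ε / 3 := by
    have h1 : t - s = (t - a) - (s - a) := by abel
    rw [hB, norm_smul, h1]
    have h2 : ‖(1 / (2 * Complex.I) : ℂ)‖ = 1 / 2 := by
      simp
    rw [h2]
    have := norm_sub_le (t - a) (s - a)
    linarith
  have hin : ∀ l : ℂ, ‖l‖ < 2 → dist (A + l • B) a < ε := by
    intro l hl
    rw [dist_eq_norm]
    have h1 : A + l • B - a = (A - a) + l • B := by abel
    rw [h1]
    have h2 := norm_add_le (A - a) (l • B)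
    rw [norm_smul] at h2
    nlinarith [norm_nonneg B, norm_nonneg l]
  have hd1 : ∀ l : ℂ, ‖l‖ < 2 → DifferentiableAt ℂ (fun l : ℂ => γ (A + l • B)) l := by
    intro l hl
    exact (hball (hin l hl)).1.comp l (by fun_prop)
  have hd2 : ∀ l : ℂ, ‖l‖ < 2 → ∀ j, DifferentiableAt ℂ
      (fun l : ℂ => (starRingEnd ℂ) (γ (A + (starRingEnd ℂ) l • B) j)) l := by
    intro l hl j
    have hl' : ‖(starRingEnd ℂ) l‖ < 2 := by rwa [Complex.norm_conj]
    have h1 := differentiableAt_pi.1 (hd1 _ hl') j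
    have h2 := h1.conj_conj
    rw [Complex.conj_conj] at h2
    exact h2
  have hK : DifferentiableOn ℂ (fun l : ℂ => H P (γ (A + l • B))
      (fun j => (starRingEnd ℂ) (γ (A + (starRingEnd ℂ) l • B) j))) (Metric.ball 0 2) := by
    intro l hl
    rw [mem_ball_zero_iff] at hl
    refine DifferentiableAt.differentiableWithinAt ?_
    have hc : ∀ i : Fin k ⊕ Fin k, DifferentiableAt ℂ (fun l : ℂ =>
        (Sum.elim (fun j => (γ (A + l • B) j +
          (starRingEnd ℂ) (γ (A + (starRingEnd ℂ) l • B) j)) / 2)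
          (fun j => (γ (A + l • B) j -
            (starRingEnd ℂ) (γ (A + (starRingEnd ℂ) l • B) j)) / (2 * Complex.I)) :
            Fin k ⊕ Fin k → ℂ) i) l := by
      intro i
      rcases i with j | j
      · exact ((differentiableAt_pi.1 (hd1 l hl) j).add (hd2 l hl j)).div_const _
      · exact ((differentiableAt_pi.1 (hd1 l hl) j).sub (hd2 l hl j)).div_const _
    exact aeval_diffAt P hc
  have hKa : AnalyticOnNhd ℂ (fun l : ℂ => H P (γ (A + l • B))
      (fun j => (starRingEnd ℂ) (γ (A + (starRingEnd ℂ) l • B) j))) (Metric.ball 0 2) :=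
    hK.analyticOnNhd Metric.isOpen_ball
  have hreal : ∀ l : ℝ, |l| < 2 → H P (γ (A + (l : ℂ) • B))
      (fun j => (starRingEnd ℂ) (γ (A + (starRingEnd ℂ) (l : ℂ) • B) j)) = 0 := by
    intro l hl
    rw [Complex.conj_ofReal, H_real, (hball (hin (l : ℂ) (by rwa [Complex.norm_real]))).2,
      Complex.ofReal_zero]
  have hfreq : ∃ᶠ l in 𝓝[≠] (0 : ℂ), H P (γ (A + l • B))
      (fun j => (starRingEnd ℂ) (γ (A + (starRingEnd ℂ) l • B) j)) = 0 := by
    have ht : Tendsto (fun l : ℝ => (l : ℂ)) (𝓝[≠] 0) (𝓝[≠] 0) := by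
      refine tendsto_nhdsWithin_iff.2 ⟨?_, ?_⟩
      · exact (Complex.continuous_ofReal.tendsto' 0 0 Complex.ofReal_zero).mono_left
          nhdsWithin_le_nhds
      · filter_upwards [self_mem_nhdsWithin] with l hl
        simpa using hl
    refine ht.frequently (Eventually.frequently ?_)
    refine nhdsWithin_le_nhds ?_
    filter_upwards [Metric.ball_mem_nhds (0 : ℝ) (show (0 : ℝ) < 2 by norm_num)] with l hl
    rw [mem_ball_zero_iff, Real.norm_eq_abs] at hl
    exact hreal l hl
  have hz := hKa.eqOn_zero_of_preconnected_of_frequently_eq_zero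
    (convex_ball _ _).isPreconnected (Metric.mem_ball_self (by norm_num)) hfreq
    (x := Complex.I) (by rw [mem_ball_zero_iff, Complex.norm_I]; norm_num)
  have hI1 : A + Complex.I • B = t := by
    rw [hA, hB]
    funext j
    simp only [Pi.add_apply, Pi.smul_apply, Pi.sub_apply, smul_eq_mul]
    field_simp
    ring
  have hI2 : A + (starRingEnd ℂ) Complex.I • B = s := by
    rw [hA, hB, Complex.conj_I]
    funext j
    simp only [Pi.add_apply, Pi.smul_apply, Pi.sub_apply, smul_eq_mul]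
    field_simp
    ring
  simp only [hI1, hI2] at hz
  exact hz

end Pool.Agent.LFA74
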