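import Pool.Agent.LFA74.Gen
import Pool.Agent.LFA74.Path
import Pool.Agent.LFA74.Pol45

set_option autoImplicit false

namespace Pool.Agent.LFA74

open Topology Filter Set

theorem val_cont {k : ℕ} (P : MvPolynomial (Fin k ⊕ Fin k) ℝ) : Continuous (val P) := by
  have h1 : Continuous fun z : Fin k → ℂ =>
      (Sum.elim (fun j => (z j).re) (fun j => (z j).im) : Fin k ⊕ Fin k → ℝ) := by
    refine continuous_pi fun i => ?_
    rcases i with j | j
    · exact Complex.continuous_re.comp (continuous_apply j)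
    · exact Complex.continuous_im.comp (continuous_apply j)
  exact (MvPolynomial.continuous_eval P).comp h1

/-- The polynomial of a leaf: if the zero set of `P` contains the germ of the graph at `a`, there is
`q ≠ 0` of degree at most `deg P`, vanishing on the graph, with `{q = 0} ⊆ {P = 0}`. -/
theorem leaf_poly {m : ℕ} (P : MvPolynomial (Fin (m + 1) ⊕ Fin (m + 1)) ℝ)
    {z0 : Fin (m + 1) → ℂ} (hz0 : val P z0 ≠ 0) (i : Fin (m + 1)) {φ : (Fin m → ℂ) → ℂ}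
    {a : Fin m → ℂ} (hφ : AnalyticAt ℂ φ a)
    (h0 : ∀ᶠ t in 𝓝 a, val P (i.insertNth (φ t) t : Fin (m + 1) → ℂ) = 0) :
    ∃ q : MvPolynomial (Fin (m + 1)) ℂ, q ≠ 0 ∧ q.totalDegree ≤ P.totalDegree ∧
      MvPolynomial.eval (i.insertNth (φ a) a : Fin (m + 1) → ℂ) q = 0 ∧
      ∀ z, MvPolynomial.eval z q = 0 → val P z = 0 := by
  set γ : (Fin m → ℂ) → (Fin (m + 1) → ℂ) := fun t => i.insertNth (φ t) t with hγdef
  have hγ : ∀ᶠ t in 𝓝 a, DifferentiableAt ℂ γ t := by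
    filter_upwards [hφ.eventually_analyticAt] with t ht
    refine differentiableAt_pi.2 fun j => ?_
    rcases eq_or_ne j i with rfl | hj
    · simpa [hγdef] using ht.differentiableAt
    · obtain ⟨l, rfl⟩ := Fin.exists_succAbove_eq hj
      simp only [hγdef, Fin.insertNth_apply_succAbove]
      exact differentiableAt_apply l t
  have hpol := polarise P hγ h0
  -- `H(γ t, z̄)` and `H(z, conj γ t)` are conjugate
  have hsym : ∀ z w : Fin (m + 1) → ℂ, H P z (fun j => (starRingEnd ℂ) (w j)) = 0 →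
      H P w (fun j => (starRingEnd ℂ) (z j)) = 0 := by
    intro z w h
    have h1 := H_conj P z (fun j => (starRingEnd ℂ) (w j))
    rw [h, map_zero] at h1
    simp only [Complex.conj_conj] at h1
    exact h1.symm
  -- every `H(·, conj γ s)` vanishes on the germ
  have hex : ∃ h : MvPolynomial (Fin (m + 1)) ℂ, h ≠ 0 ∧ h.totalDegree ≤ P.totalDegree ∧
      ∀ᶠ t in 𝓝 a, MvPolynomial.eval (γ t) h = 0 := by
    by_cases hc : ∀ᶠ s in 𝓝 a, Hp P (fun j => (starRingEnd ℂ) (γ s j)) = 0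
    · refine ⟨Hp P (fun j => (starRingEnd ℂ) (z0 j)), ?_, deg_Hp _ _, ?_⟩
      · intro h
        have h1 := eval_Hp P z0 (fun j => (starRingEnd ℂ) (z0 j))
        rw [h, map_zero, H_real] at h1
        exact hz0 (Complex.ofReal_eq_zero.1 h1.symm)
      · filter_upwards [hc] with s hs
        rw [eval_Hp]
        apply hsym
        rw [← eval_Hp, hs, map_zero]
    · obtain ⟨s, hs1, hs2⟩ := (hpol.and_frequently (not_eventually.1 hc)).exists
      refine ⟨_, hs2, deg_Hp _ _, ?_⟩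
      filter_upwards [hs1] with t ht
      rw [eval_Hp]
      exact ht
  obtain ⟨h, hh0, hhd, hhv⟩ := hex
  obtain ⟨q, hq0, hqv, hqd⟩ := exists_gen i hφ hh0 hhv
  refine ⟨q, hq0, ?_, hqv.self_of_nhds, ?_⟩
  · exact (MvPolynomial.totalDegree_le_of_dvd_of_isDomain (hqd h hhv) hh0).trans hhd
  · intro z hz
    have h1 : ∀ᶠ s in 𝓝 a, MvPolynomial.eval (γ s) (Hp P (fun j => (starRingEnd ℂ) (z j))) = 0 := by
      filter_upwards [hpol] with s hs
      rw [eval_Hp]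
      apply hsym
      rw [← eval_Hp]
      obtain ⟨c, hc⟩ := hqd (Hp P (fun j => (starRingEnd ℂ) (γ s j))) (by
        filter_upwards [hs] with t ht
        rw [eval_Hp]
        exact ht)
      rw [hc, map_mul, hz, zero_mul]
    obtain ⟨c, hc⟩ := hqd _ h1
    have h2 := eval_Hp P z (fun j => (starRingEnd ℂ) (z j))
    rw [hc, map_mul, hz, zero_mul, H_real] at h2
    exact Complex.ofReal_eq_zero.1 h2.symm

theorem no_levi_flat {m : ℕ} {Ω : Set (Fin (m + 1) → ℂ)} (hΩ : IsOpen Ω)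
    {F G : (Fin (m + 1) → ℂ) → (Fin (m + 1) → ℂ)} (hG : Differentiable ℂ G)
    (hGΩ : ∀ y, G y ∈ Ω) (hGF : ∀ x ∈ Ω, G (F x) = x)
    (P : MvPolynomial (Fin (m + 1) ⊕ Fin (m + 1)) ℝ) (hP : ∀ z ∈ Ω, val P z ≠ 0)
    {U : Set (Fin (m + 1) → ℂ)} (hU : IsOpen U) (hUc : Convex ℝ U) {x y : Fin (m + 1) → ℂ}
    (hx : x ∈ U) (hy : y ∈ U) (hPx : val P x < 0) (hPy : 0 < val P y)
    (hleaf : ∀ p ∈ U, val P p = 0 → ∃ (i : Fin (m + 1)) (φ : (Fin m → ℂ) → ℂ) (a : Fin m → ℂ),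
      AnalyticAt ℂ φ a ∧ (i.insertNth (φ a) a : Fin (m + 1) → ℂ) = p ∧
      ∀ᶠ t in 𝓝 a, val P (i.insertNth (φ t) t) = 0) : False := by
  obtain ⟨Q, hQ0, hQ⟩ := master hΩ hG hGΩ hGF P.totalDegree
  obtain ⟨z, hzU, hz0, hzQ⟩ := sign_path hU hUc (val_cont P) hx hy hPx hPy hQ0
  obtain ⟨i, φ, a, hφ, hp, hv⟩ := hleaf z hzU hz0
  obtain ⟨q, hq0, hqd, hqp, hq⟩ := leaf_poly P (hP _ (hGΩ 0)) i hφ hv
  rw [hp] at hqp
  exact hzQ (hQ q hq0 hqd (fun w hw h => hP w hw (hq w h)) z hqp)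

/-- Through all points outside a proper complex algebraic hypersurface `{Q = 0}` passes no germ of a
smooth complex hypersurface contained in `{P = 0}`; `Q` depends only on `Ω` and the degree. -/
theorem leaf_locus {m : ℕ} {Ω : Set (Fin (m + 1) → ℂ)} (hΩ : IsOpen Ω)
    {F G : (Fin (m + 1) → ℂ) → (Fin (m + 1) → ℂ)} (hG : Differentiable ℂ G)
    (hGΩ : ∀ y, G y ∈ Ω) (hGF : ∀ x ∈ Ω, G (F x) = x) (d : ℕ) :
    ∃ Q : MvPolynomial (Fin (m + 1)) ℂ, Q ≠ 0 ∧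
      ∀ P : MvPolynomial (Fin (m + 1) ⊕ Fin (m + 1)) ℝ, P.totalDegree ≤ d →
        (∀ z ∈ Ω, val P z ≠ 0) →
        ∀ (i : Fin (m + 1)) (φ : (Fin m → ℂ) → ℂ) (a : Fin m → ℂ), AnalyticAt ℂ φ a →
          (∀ᶠ t in 𝓝 a, val P (i.insertNth (φ t) t) = 0) →
          MvPolynomial.eval (i.insertNth (φ a) a : Fin (m + 1) → ℂ) Q = 0 := by
  obtain ⟨Q, hQ0, hQ⟩ := master hΩ hG hGΩ hGF d
  refine ⟨Q, hQ0, fun P hPd hP i φ a hφ hv => ?_⟩
  obtain ⟨q, hq0, hqd, hqp, hq⟩ := leaf_poly P (hP _ (hGΩ 0)) i hφ hv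
  exact hQ q hq0 (hqd.trans hPd) (fun w hw h => hP w hw (hq w h)) _ hqp

end Pool.Agent.LFA74
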