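import Pool.Agent.FB74.Alg

/-!
The polynomials in `m + 1` variables vanishing on the germ of an analytic graph over `ℂ ^ m` form a
principal ideal (helper42, for helper74).
-/

set_option autoImplicit false

open Topology Filter Set

noncomputable section

namespace Pool.Agent.LFA74

variable {m : ℕ}

/-- polynomials vanishing on the germ of the graph `(φ t, t)` at `a` -/
def vanC (φ : (Fin m → ℂ) → ℂ) (a : Fin m → ℂ) : Ideal (MvPolynomial (Fin (m + 1)) ℂ) where
  carrier := {f | ∀ᶠ t in 𝓝 a, MvPolynomial.eval (Fin.cons (φ t) t : Fin (m + 1) → ℂ) f = 0}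
  add_mem' := by
    intro f g hf hg
    have hf : ∀ᶠ t in 𝓝 a, MvPolynomial.eval (Fin.cons (φ t) t : Fin (m + 1) → ℂ) f = 0 := hf
    have hg : ∀ᶠ t in 𝓝 a, MvPolynomial.eval (Fin.cons (φ t) t : Fin (m + 1) → ℂ) g = 0 := hg
    show ∀ᶠ t in 𝓝 a, MvPolynomial.eval (Fin.cons (φ t) t : Fin (m + 1) → ℂ) (f + g) = 0
    filter_upwards [hf, hg] with t h1 h2
    rw [map_add, h1, h2, add_zero]
  zero_mem' := Eventually.of_forall fun t => map_zero _
  smul_mem' := by
    intro c f hf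
    have hf : ∀ᶠ t in 𝓝 a, MvPolynomial.eval (Fin.cons (φ t) t : Fin (m + 1) → ℂ) f = 0 := hf
    show ∀ᶠ t in 𝓝 a, MvPolynomial.eval (Fin.cons (φ t) t : Fin (m + 1) → ℂ) (c * f) = 0
    filter_upwards [hf] with t h1
    rw [map_mul, h1, mul_zero]

theorem mem_vanC {φ : (Fin m → ℂ) → ℂ} {a : Fin m → ℂ} {f : MvPolynomial (Fin (m + 1)) ℂ} :
    f ∈ vanC φ a ↔
      ∀ᶠ t in 𝓝 a, MvPolynomial.eval (Fin.cons (φ t) t : Fin (m + 1) → ℂ) f = 0 := Iff.rfl

theorem evalC_ana {φ : (Fin m → ℂ) → ℂ} {a : Fin m → ℂ} (hφ : AnalyticAt ℂ φ a)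
    (f : MvPolynomial (Fin (m + 1)) ℂ) :
    AnalyticAt ℂ (fun t => MvPolynomial.eval (Fin.cons (φ t) t : Fin (m + 1) → ℂ) f) a := by
  have := AnalyticAt.aeval_mvPolynomial (𝕜 := ℂ) (A := ℂ) (B := ℂ)
    (f := fun t => (Fin.cons (φ t) t : Fin (m + 1) → ℂ)) (z := a) (fun i => by
      refine Fin.cases ?_ (fun j => ?_) i
      · exact hφ
      · exact (ContinuousLinearMap.proj (R := ℂ) (φ := fun _ : Fin m => ℂ) j).analyticAt a) f
  refine this.congr (Eventually.of_forall fun t => ?_)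
  simp only [MvPolynomial.aeval_eq_eval]

theorem evalP_ana (a : Fin m → ℂ) (c : MvPolynomial (Fin m) ℂ) :
    AnalyticAt ℂ (fun t : Fin m → ℂ => MvPolynomial.eval t c) a := by
  have := AnalyticAt.aeval_mvPolynomial (𝕜 := ℂ) (A := ℂ) (B := ℂ)
    (f := fun t : Fin m → ℂ => t) (z := a) (fun j =>
      (ContinuousLinearMap.proj (R := ℂ) (φ := fun _ : Fin m => ℂ) j).analyticAt a) c
  refine this.congr (Eventually.of_forall fun t => ?_)
  simp only [MvPolynomial.aeval_eq_eval]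

theorem vanC_prime {φ : (Fin m → ℂ) → ℂ} {a : Fin m → ℂ} (hφ : AnalyticAt ℂ φ a) :
    (vanC φ a).IsPrime := by
  refine ⟨?_, ?_⟩
  · intro h
    have h1 : (1 : MvPolynomial (Fin (m + 1)) ℂ) ∈ vanC φ a := by rw [h]; trivial
    rw [mem_vanC] at h1
    have h2 := h1.self_of_nhds
    rw [map_one] at h2
    exact one_ne_zero h2
  · intro f g hfg
    rw [mem_vanC] at hfg
    obtain ⟨r, hr, hball⟩ := Metric.eventually_nhds_iff_ball.1 (hφ.eventually_analyticAt.and hfg)
    set F : (Fin m → ℂ) → ℂ := fun t =>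
      MvPolynomial.eval (Fin.cons (φ t) t : Fin (m + 1) → ℂ) f with hF
    set G : (Fin m → ℂ) → ℂ := fun t =>
      MvPolynomial.eval (Fin.cons (φ t) t : Fin (m + 1) → ℂ) g with hG
    have hFa : AnalyticOnNhd ℂ F (Metric.ball a r) := fun t ht => evalC_ana (hball t ht).1 f
    have hGa : AnalyticOnNhd ℂ G (Metric.ball a r) := fun t ht => evalC_ana (hball t ht).1 g
    have hFG : ∀ t ∈ Metric.ball a r, F t * G t = 0 := by
      intro t ht
      have h1 := (hball t ht).2
      rw [map_mul] at h1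
      exact h1
    by_cases hz : ∀ t ∈ Metric.ball a r, F t = 0
    · left
      rw [mem_vanC]
      filter_upwards [Metric.ball_mem_nhds a hr] with t ht
      exact hz t ht
    · right
      push Not at hz
      obtain ⟨t0, ht0, hne⟩ := hz
      have h1 : ∀ᶠ t in 𝓝 t0, F t ≠ 0 := (hFa t0 ht0).continuousAt.eventually_ne hne
      have h2 : G =ᶠ[𝓝 t0] 0 := by
        filter_upwards [h1, Metric.isOpen_ball.mem_nhds ht0] with t h3 h4
        rcases mul_eq_zero.1 (hFG t h4) with h5 | h5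
        · exact absurd h5 h3
        · exact h5
      have h3 := hGa.eqOn_zero_of_preconnected_of_eventuallyEq_zero
        (convex_ball a r).isPreconnected ht0 h2
      rw [mem_vanC]
      filter_upwards [Metric.ball_mem_nhds a hr] with t ht
      exact h3 ht

theorem exists_genC {φ : (Fin m → ℂ) → ℂ} {a : Fin m → ℂ} (hφ : AnalyticAt ℂ φ a)
    {h : MvPolynomial (Fin (m + 1)) ℂ} (hh0 : h ≠ 0) (hhI : h ∈ vanC φ a) :
    ∃ q ∈ vanC φ a, q ≠ 0 ∧ ∀ f ∈ vanC φ a, q ∣ f := by
  set σ := MvPolynomial.finSuccEquiv ℂ m with hσ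
  set I : Ideal (Polynomial (MvPolynomial (Fin m) ℂ)) :=
    Ideal.comap (σ.symm : Polynomial (MvPolynomial (Fin m) ℂ) →+* MvPolynomial (Fin (m + 1)) ℂ)
      (vanC φ a) with hI
  have hIp : I.IsPrime := by
    have := vanC_prime hφ
    exact Ideal.comap_isPrime _ _
  have hmem : ∀ f, f ∈ vanC φ a → σ f ∈ I := by
    intro f hf
    rw [hI, Ideal.mem_comap]
    show σ.symm (σ f) ∈ vanC φ a
    rwa [AlgEquiv.symm_apply_apply]
  have hne : I ≠ ⊥ := by
    intro h0
    have h1 := hmem h hhI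
    rw [h0] at h1
    have h2 : σ h = 0 := h1
    exact hh0 ((map_eq_zero_iff σ σ.injective).1 h2)
  have hA : ∀ c : MvPolynomial (Fin m) ℂ, Polynomial.C c ∈ I → c = 0 := by
    intro c hc
    rw [hI, Ideal.mem_comap] at hc
    have hc : ∀ᶠ t in 𝓝 a, MvPolynomial.eval (Fin.cons (φ t) t : Fin (m + 1) → ℂ)
      (σ.symm (Polynomial.C c)) = 0 := hc
    have h1 : ∀ t : Fin m → ℂ, MvPolynomial.eval (Fin.cons (φ t) t : Fin (m + 1) → ℂ)
        (σ.symm (Polynomial.C c)) = MvPolynomial.eval t c := by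
      intro t
      have h2 := MvPolynomial.eval_eq_eval_mv_eval' t (φ t) (σ.symm (Polynomial.C c))
      rw [← hσ, AlgEquiv.apply_symm_apply, Polynomial.map_C, Polynomial.eval_C] at h2
      exact h2
    have h2 : AnalyticOnNhd ℂ (fun t : Fin m → ℂ => MvPolynomial.eval t c) Set.univ :=
      fun t _ => evalP_ana t c
    have h3 : (fun t : Fin m → ℂ => MvPolynomial.eval t c) =ᶠ[𝓝 a] 0 := by
      filter_upwards [hc] with t ht
      rw [h1] at ht
      exact ht
    have h4 := h2.eqOn_zero_of_preconnected_of_eventuallyEq_zero isPreconnected_univ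
      (Set.mem_univ a) h3
    refine MvPolynomial.funext fun x => ?_
    rw [map_zero]
    exact h4 (Set.mem_univ x)
  obtain ⟨q, hqI, hq0, hq⟩ := Pool.FB74.exists_prime_gen I hIp hne hA
  refine ⟨σ.symm q, hqI, ?_, ?_⟩
  · intro h0
    exact hq0 ((map_eq_zero_iff σ.symm σ.symm.injective).1 h0)
  · intro f hf
    have h1 := hq _ (hmem f hf)
    have h2 := map_dvd
      (σ.symm : Polynomial (MvPolynomial (Fin m) ℂ) →+* MvPolynomial (Fin (m + 1)) ℂ) h1
    have h3 : σ.symm q ∣ σ.symm (σ f) := h2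
    rwa [AlgEquiv.symm_apply_apply] at h3

/-- (A) the polynomials vanishing on the germ of a graph form a principal ideal -/
theorem exists_gen {m : ℕ} (i : Fin (m + 1)) {φ : (Fin m → ℂ) → ℂ} {a : Fin m → ℂ}
    (hφ : AnalyticAt ℂ φ a) {h : MvPolynomial (Fin (m + 1)) ℂ} (hh0 : h ≠ 0)
    (hhI : ∀ᶠ t in 𝓝 a, MvPolynomial.eval (i.insertNth (φ t) t : Fin (m + 1) → ℂ) h = 0) :
    ∃ q : MvPolynomial (Fin (m + 1)) ℂ, q ≠ 0 ∧
      (∀ᶠ t in 𝓝 a, MvPolynomial.eval (i.insertNth (φ t) t : Fin (m + 1) → ℂ) q = 0) ∧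
      ∀ f : MvPolynomial (Fin (m + 1)) ℂ,
        (∀ᶠ t in 𝓝 a, MvPolynomial.eval (i.insertNth (φ t) t : Fin (m + 1) → ℂ) f = 0) → q ∣ f := by
  set e : Equiv.Perm (Fin (m + 1)) := i.cycleRange with he
  have hins : ∀ t : Fin m → ℂ, (i.insertNth (φ t) t : Fin (m + 1) → ℂ) ∘ e.symm =
      (Fin.cons (φ t) t : Fin (m + 1) → ℂ) := fun t =>
    Fin.insertNth_comp_cycleRange_symm i (φ t) t
  have hins' : ∀ t : Fin m → ℂ, (Fin.cons (φ t) t : Fin (m + 1) → ℂ) ∘ e =
      (i.insertNth (φ t) t : Fin (m + 1) → ℂ) := by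
    intro t
    rw [← hins t, Function.comp_assoc, Equiv.symm_comp_self, Function.comp_id]
  have h1 : ∀ (t : Fin m → ℂ) (f : MvPolynomial (Fin (m + 1)) ℂ),
      MvPolynomial.eval (Fin.cons (φ t) t : Fin (m + 1) → ℂ) (MvPolynomial.rename e f) =
        MvPolynomial.eval (i.insertNth (φ t) t : Fin (m + 1) → ℂ) f := by
    intro t f
    rw [MvPolynomial.eval_rename, hins']
  have h2 : ∀ (t : Fin m → ℂ) (f : MvPolynomial (Fin (m + 1)) ℂ),
      MvPolynomial.eval (i.insertNth (φ t) t : Fin (m + 1) → ℂ) (MvPolynomial.rename e.symm f) =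
        MvPolynomial.eval (Fin.cons (φ t) t : Fin (m + 1) → ℂ) f := by
    intro t f
    rw [MvPolynomial.eval_rename, hins]
  have hinj := MvPolynomial.rename_injective (R := ℂ) e e.injective
  have hinj' := MvPolynomial.rename_injective (R := ℂ) e.symm e.symm.injective
  have hback : ∀ f : MvPolynomial (Fin (m + 1)) ℂ,
      MvPolynomial.rename e.symm (MvPolynomial.rename e f) = f := by
    intro f
    rw [MvPolynomial.rename_rename, Equiv.symm_comp_self, MvPolynomial.rename_id_apply]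
  obtain ⟨q, hqI, hq0, hq⟩ := exists_genC (φ := φ) (a := a) hφ
    (h := MvPolynomial.rename e h) (by
      intro h0
      exact hh0 (hinj (by rw [h0, map_zero]))) (by
      rw [mem_vanC]
      filter_upwards [hhI] with t ht
      rw [h1, ht])
  refine ⟨MvPolynomial.rename e.symm q, ?_, ?_, ?_⟩
  · intro h0
    exact hq0 (hinj' (by rw [h0, map_zero]))
  · rw [mem_vanC] at hqI
    filter_upwards [hqI] with t ht
    rw [h2, ht]
  · intro f hf
    have h3 := hq (MvPolynomial.rename e f) (by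
      rw [mem_vanC]
      filter_upwards [hf] with t ht
      rw [h1, ht])
    have h4 := map_dvd (MvPolynomial.rename (R := ℂ) e.symm) h3
    rwa [hback] at h4

end Pool.Agent.LFA74
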