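import Pool.Agent.FB74.Lines

/-!
Polynomials of bounded degree without zeros on the image of an entire map: up to constant factors
there are only finitely many of them (Borel's theorem), in every dimension.
-/

set_option autoImplicit false

namespace Pool.Agent.LFA74

open Topology Filter Set

variable {n : ℕ}

theorem eval_diff (f : MvPolynomial (Fin n) ℂ) :
    Differentiable ℂ fun z : Fin n → ℂ => MvPolynomial.eval z f := by
  induction f using MvPolynomial.induction_on with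
  | C a => simp
  | add p q hp hq =>
    simp only [map_add]
    exact hp.add hq
  | mul_X p i hp =>
    simp only [map_mul, MvPolynomial.eval_X]
    exact hp.mul (differentiable_apply i)

theorem eq_zero_of_eval_open {f : MvPolynomial (Fin n) ℂ} {U : Set (Fin n → ℂ)} (hU : IsOpen U)
    (hne : U.Nonempty) (h : ∀ z ∈ U, MvPolynomial.eval z f = 0) : f = 0 := by
  obtain ⟨u, hu⟩ := hne
  refine MvPolynomial.funext fun x => ?_
  rw [map_zero]
  exact Pool.FB74.eq_zero_of_open (eval_diff f) hU hu h x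

/-- Up to constants there are only finitely many polynomials of degree at most `d` without zeros in
the open set `Ω = G(ℂⁿ)`, `G` entire. -/
theorem finite_classes {Ω : Set (Fin n → ℂ)} (hΩ : IsOpen Ω) (hne : Ω.Nonempty)
    {G : (Fin n → ℂ) → (Fin n → ℂ)} (hG : Differentiable ℂ G) (hGΩ : ∀ y, G y ∈ Ω)
    (hsur : ∀ x ∈ Ω, ∃ y, G y = x) (d : ℕ) :
    ∃ T : Finset (MvPolynomial (Fin n) ℂ),
      (∀ g ∈ T, g ≠ 0 ∧ ∀ z ∈ Ω, MvPolynomial.eval z g ≠ 0) ∧
      ∀ f : MvPolynomial (Fin n) ℂ, f.totalDegree ≤ d → (∀ z ∈ Ω, MvPolynomial.eval z f ≠ 0) →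
        ∃ g ∈ T, ∃ c : ℂ, c ≠ 0 ∧ f = c • g := by
  classical
  set W := MvPolynomial.restrictTotalDegree (Fin n) ℂ d with hW
  set S : Set W := {w | ∀ z ∈ Ω, MvPolynomial.eval z (w : MvPolynomial (Fin n) ℂ) ≠ 0} with hS
  obtain ⟨b, hbS, hbspan, hbli⟩ := exists_linearIndependent ℂ S
  have hbfin : b.Finite := hbli.setFinite
  have hev : ∀ (a : ℂ) (w : W) (z : Fin n → ℂ), MvPolynomial.eval z
      ((a • w : W) : MvPolynomial (Fin n) ℂ) = a * MvPolynomial.eval z
        (w : MvPolynomial (Fin n) ℂ) := by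
    intro a w z
    rw [Submodule.coe_smul, MvPolynomial.smul_eval]
  obtain ⟨x0, hx0⟩ := hne
  refine ⟨hbfin.toFinset.image Subtype.val, ?_, ?_⟩
  · intro g hg
    obtain ⟨w, hw, rfl⟩ := Finset.mem_image.1 hg
    have hwS := hbS (hbfin.mem_toFinset.1 hw)
    refine ⟨fun h0 => ?_, hwS⟩
    have := hwS x0 hx0
    rw [h0, map_zero] at this
    exact this rfl
  intro f hfd hfΩ
  set q : W := ⟨f, (MvPolynomial.mem_restrictTotalDegree _ _ _).2 hfd⟩ with hq
  have hqS : q ∈ S := hfΩ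
  by_cases hqb : q ∈ b
  · exact ⟨f, Finset.mem_image.2 ⟨q, hbfin.mem_toFinset.2 hqb, rfl⟩, 1, one_ne_zero,
      (one_smul ℂ f).symm⟩
  have hqspan : q ∈ Submodule.span ℂ b := by
    rw [hbspan]
    exact Submodule.subset_span hqS
  obtain ⟨c, hc1, hc2⟩ := Submodule.mem_span_set.1 hqspan
  set J : Finset W := insert q c.support with hJ
  have hqc : q ∉ c.support := fun h => hqb (hc1 h)
  set co : W → ℂ := fun w => if w = q then 1 else -c w with hco
  have hJS : ∀ w ∈ J, w ∈ S := by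
    intro w hw
    rcases Finset.mem_insert.1 hw with h | h
    · rw [h]; exact hqS
    · exact hbS (hc1 h)
  have hco0 : ∀ w ∈ J, co w ≠ 0 := by
    intro w hw
    rcases Finset.mem_insert.1 hw with h | h
    · simp [hco, h]
    · have h1 : w ≠ q := fun h2 => hqc (h2 ▸ h)
      simp only [hco]
      rw [if_neg h1]
      exact neg_ne_zero.2 (Finsupp.mem_support_iff.1 h)
  have hsum : ∀ z, ∑ w ∈ J, co w * MvPolynomial.eval (G z) (w : MvPolynomial (Fin n) ℂ) = 0 := by
    intro z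
    rw [hJ, Finset.sum_insert hqc]
    have h1 : ∑ w ∈ c.support, co w * MvPolynomial.eval (G z) (w : MvPolynomial (Fin n) ℂ)
        = -∑ w ∈ c.support, c w * MvPolynomial.eval (G z) (w : MvPolynomial (Fin n) ℂ) := by
      rw [← Finset.sum_neg_distrib]
      refine Finset.sum_congr rfl fun w hw => ?_
      have h2 : w ≠ q := fun h2 => hqc (h2 ▸ hw)
      simp only [hco]
      rw [if_neg h2]
      ring
    have h3 : MvPolynomial.eval (G z) (q : MvPolynomial (Fin n) ℂ)
        = ∑ w ∈ c.support, c w * MvPolynomial.eval (G z) (w : MvPolynomial (Fin n) ℂ) := by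
      rw [← hc2, Finsupp.sum]
      rw [AddSubmonoidClass.coe_finsetSum, map_sum]
      refine Finset.sum_congr rfl fun w _ => ?_
      rw [hev]
    rw [h1, h3]
    have h4 : co q = 1 := by simp [hco]
    rw [h4, one_mul, ← sub_eq_add_neg, sub_self]
  obtain ⟨i, hi, j, hj, hij, hprop⟩ := Pool.FB74.borel2 (J := J)
    (h := fun w z => co w * MvPolynomial.eval (G z) (w : MvPolynomial (Fin n) ℂ))
    (Finset.insert_nonempty _ _)
    (fun w _ => ((eval_diff _).comp hG).const_mul _)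
    (fun w hw z => mul_ne_zero (hco0 w hw) (hJS w hw _ (hGΩ z))) hsum
  set α : ℂ := co i * (co j * MvPolynomial.eval (G 0) (j : MvPolynomial (Fin n) ℂ)) with hα
  set β : ℂ := co j * (co i * MvPolynomial.eval (G 0) (i : MvPolynomial (Fin n) ℂ)) with hβ
  have hα0 : α ≠ 0 := mul_ne_zero (hco0 i hi) (mul_ne_zero (hco0 j hj) (hJS j hj _ (hGΩ 0)))
  have hβ0 : β ≠ 0 := mul_ne_zero (hco0 j hj) (mul_ne_zero (hco0 i hi) (hJS i hi _ (hGΩ 0)))
  have hpoly : α • i = β • j := by
    have h0 : ((α • i - β • j : W) : MvPolynomial (Fin n) ℂ) = 0 := by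
      refine eq_zero_of_eval_open hΩ ⟨x0, hx0⟩ fun z hz => ?_
      obtain ⟨y, rfl⟩ := hsur z hz
      have h1 := hprop y
      rw [Submodule.coe_sub, map_sub, hev, hev, hα, hβ]
      linear_combination h1
    exact sub_eq_zero.1 (Subtype.ext h0)
  by_cases hiq : i = q
  · have hjq : j ≠ q := fun h => hij (hiq.trans h.symm)
    have hjb : j ∈ b := by
      rcases Finset.mem_insert.1 hj with h | h
      · exact absurd h hjq
      · exact hc1 h
    refine ⟨j, Finset.mem_image.2 ⟨j, hbfin.mem_toFinset.2 hjb, rfl⟩, α⁻¹ * β,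
      mul_ne_zero (inv_ne_zero hα0) hβ0, ?_⟩
    have h2 : q = (α⁻¹ * β) • j := by
      rw [mul_smul, ← hpoly, smul_smul, inv_mul_cancel₀ hα0, one_smul, hiq]
    exact congrArg Subtype.val h2
  have hib : i ∈ b := by
    rcases Finset.mem_insert.1 hi with h | h
    · exact absurd h hiq
    · exact hc1 h
  by_cases hjq : j = q
  · refine ⟨i, Finset.mem_image.2 ⟨i, hbfin.mem_toFinset.2 hib, rfl⟩, β⁻¹ * α,
      mul_ne_zero (inv_ne_zero hβ0) hα0, ?_⟩
    have h2 : q = (β⁻¹ * α) • i := by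
      rw [mul_smul, hpoly, smul_smul, inv_mul_cancel₀ hβ0, one_smul, hjq]
    exact congrArg Subtype.val h2
  exfalso
  have hjb : j ∈ b := by
    rcases Finset.mem_insert.1 hj with h | h
    · exact absurd h hjq
    · exact hc1 h
  have hpair : LinearIndependent ℂ ![i, j] := by
    have h1 := hbli.comp ![(⟨i, hib⟩ : b), ⟨j, hjb⟩] (by
      intro x y hxy
      fin_cases x <;> fin_cases y <;> simp at hxy ⊢
      · exact hij hxy
      · exact hij hxy.symm)
    have h2 : ![i, j] = (Subtype.val ∘ ![(⟨i, hib⟩ : b), ⟨j, hjb⟩]) := by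
      funext x
      fin_cases x <;> rfl
    rw [h2]
    exact h1
  rw [LinearIndependent.pair_iff] at hpair
  have := hpair α (-β) (by rw [neg_smul, hpoly, add_neg_cancel])
  exact hα0 this.1

/-- (M) finitely many omitted hypersurfaces of degree at most `d`. -/
theorem master {k : ℕ} {Ω : Set (Fin k → ℂ)} (hΩ : IsOpen Ω) {F G : (Fin k → ℂ) → (Fin k → ℂ)}
    (hG : Differentiable ℂ G) (hGΩ : ∀ y, G y ∈ Ω) (hGF : ∀ x ∈ Ω, G (F x) = x) (d : ℕ) :
    ∃ Q : MvPolynomial (Fin k) ℂ, Q ≠ 0 ∧ ∀ q : MvPolynomial (Fin k) ℂ, q ≠ 0 → q.totalDegree ≤ d →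
      (∀ z ∈ Ω, MvPolynomial.eval z q ≠ 0) → ∀ p, MvPolynomial.eval p q = 0 →
        MvPolynomial.eval p Q = 0 := by
  obtain ⟨T, hT1, hT2⟩ := finite_classes hΩ ⟨G 0, hGΩ 0⟩ hG hGΩ (fun x hx => ⟨F x, hGF x hx⟩) d
  refine ⟨∏ g ∈ T, g, Finset.prod_ne_zero_iff.2 fun g hg => (hT1 g hg).1, ?_⟩
  intro q _ hqd hqΩ p hp
  obtain ⟨g, hg, c, hc, hqg⟩ := hT2 q hqd hqΩ
  rw [hqg, MvPolynomial.smul_eval] at hp
  rw [map_prod]
  exact Finset.prod_eq_zero hg ((mul_eq_zero.1 hp).resolve_left hc)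

end Pool.Agent.LFA74
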